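import Pool.Agent.Helper54.DT.StmtsS

/-!
# Expansion of polynomials of degree three
-/

namespace Pool.Agent.Helper54.DT

open Finset Pool.Agent.Helper54.ETR Pool.Agent.Helper54.Poly

namespace TAY3h72

/-- The affine functions. -/
def aff (n : ℕ) : Submodule ℝ ((ℕ → ℝ) → ℝ) :=
  Submodule.span ℝ ({1} ∪ {f | ∃ i < n, f = fun x => x i})

theorem one_le_aff (n : ℕ) : (1 : Submodule ℝ ((ℕ → ℝ) → ℝ)) ≤ aff n := by
  rw [Submodule.one_le]
  exact Submodule.subset_span (Or.inl rfl)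

theorem pow_mono (n : ℕ) {a b : ℕ} (h : a ≤ b) : aff n ^ a ≤ aff n ^ b := by
  obtain ⟨k, rfl⟩ := Nat.exists_eq_add_of_le h
  intro f hf
  rw [pow_add]
  have h1 : (1 : (ℕ → ℝ) → ℝ) ∈ aff n ^ k := by
    rw [← Submodule.one_le]
    have := pow_le_pow_left' (one_le_aff n) k
    rwa [one_pow] at this
  have := Submodule.mul_mem_mul hf h1
  rwa [mul_one] at this

theorem eval_mem (n : ℕ) (t : Term) (ht : t.Below n) :
    (fun x => t.eval x) ∈ aff n ^ (t.deg ∅) := by
  induction t with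
  | zero => exact Submodule.zero_mem _
  | one =>
    rw [Term.deg, pow_zero]
    exact Submodule.one_le.1 le_rfl
  | var i =>
    have hi : i < n := ht
    simp only [Term.deg, Finset.notMem_empty, if_false, pow_one]
    exact Submodule.subset_span (Or.inr ⟨i, hi, rfl⟩)
  | add s t hs ht' =>
    obtain ⟨h1, h2⟩ := ht
    exact Submodule.add_mem _ (pow_mono n (le_max_left _ _) (hs h1))
      (pow_mono n (le_max_right _ _) (ht' h2))
  | sub s t hs ht' =>
    obtain ⟨h1, h2⟩ := ht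
    exact Submodule.sub_mem _ (pow_mono n (le_max_left _ _) (hs h1))
      (pow_mono n (le_max_right _ _) (ht' h2))
  | mul s t hs ht' =>
    obtain ⟨h1, h2⟩ := ht
    rw [Term.deg, pow_add]
    exact Submodule.mul_mem_mul (hs h1) (ht' h2)

/-- The coordinates of an affine function. -/
theorem aff_rep (n : ℕ) (f : (ℕ → ℝ) → ℝ) (hf : f ∈ aff n) : ∃ (c : ℝ) (l : ℕ → ℝ),
    (∀ i, n ≤ i → l i = 0) ∧ ∀ x, f x = c + ∑ i ∈ range n, l i * x i := by
  unfold aff at hf
  induction hf using Submodule.span_induction with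
  | mem f h =>
    rcases h with h | ⟨i, hi, h⟩
    · refine ⟨1, 0, fun _ _ => rfl, fun x => ?_⟩
      rw [Set.mem_singleton_iff] at h
      subst h
      simp
    · subst h
      refine ⟨0, Pi.single i 1, fun j hj => ?_, fun x => ?_⟩
      · rw [Pi.single_eq_of_ne (by omega)]
      · rw [zero_add, Finset.sum_eq_single i]
        · simp
        · intro j _ hj
          rw [Pi.single_eq_of_ne hj, zero_mul]
        · intro h
          exact absurd (Finset.mem_range.2 hi) h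
  | zero => exact ⟨0, 0, fun _ _ => rfl, fun x => by simp⟩
  | add f g _ _ hf hg =>
    obtain ⟨c, l, h1, h2⟩ := hf
    obtain ⟨c', l', h1', h2'⟩ := hg
    refine ⟨c + c', l + l', fun i hi => ?_, fun x => ?_⟩
    · rw [Pi.add_apply, h1 i hi, h1' i hi, add_zero]
    · simp only [Pi.add_apply, h2, h2', add_mul, Finset.sum_add_distrib]
      ring
  | smul r f _ hf =>
    obtain ⟨c, l, h1, h2⟩ := hf
    refine ⟨r * c, r • l, fun i hi => ?_, fun x => ?_⟩
    · rw [Pi.smul_apply, h1 i hi, smul_zero]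
    · simp only [Pi.smul_apply, h2, smul_eq_mul, mul_add, Finset.mul_sum, mul_assoc]

theorem sum_count (n : ℕ) (l : ℕ → ℝ) (hl : ∀ i, n ≤ i → l i = 0) (L : List ℕ) :
    ∑ i ∈ range n, l i * (L.count i : ℝ) = (L.map l).sum := by
  induction L with
  | nil => simp
  | cons a L ih =>
    rw [List.map_cons, List.sum_cons, ← ih]
    have : ∀ i, l i * ((a :: L).count i : ℝ) = (if i = a then l a else 0) + l i * (L.count i : ℝ) := by
      intro i
      rw [List.count_cons]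
      by_cases h : i = a
      · subst h
        simp
        ring
      · have h2 : a ≠ i := fun h3 => h h3.symm
        simp [h, h2]
    rw [Finset.sum_congr rfl fun i _ => this i, Finset.sum_add_distrib, Finset.sum_ite_eq']
    by_cases ha : a < n
    · rw [if_pos (Finset.mem_range.2 ha)]
    · rw [if_neg (by rwa [Finset.mem_range]), hl a (by omega)]

theorem aff_pv (n : ℕ) (c : ℝ) (l : ℕ → ℝ) (hl : ∀ i, n ≤ i → l i = 0) (L L' : List ℕ) :
    c + ∑ i ∈ range n, l i * pv L L' i = c + (L.map l).sum - (L'.map l).sum := by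
  rw [← sum_count n l hl L, ← sum_count n l hl L', add_sub_assoc, ← Finset.sum_sub_distrib]
  congr 1
  refine Finset.sum_congr rfl fun i _ => ?_
  unfold pv
  ring

theorem nuO_oR (n : ℕ) : nuO oR n = (n : ℝ) := by
  induction n with
  | zero => simp [nuO, oR]
  | succ n ih =>
    rw [nuO, ih]
    simp [oR]

/-- The coefficients of an affine function in homogeneous coordinates. -/
def hc (c : ℝ) (l : ℕ → ℝ) : ℕ → ℝ
  | 0 => 0
  | 1 => c
  | i + 2 => l i

theorem sum_hc (n : ℕ) (c : ℝ) (l : ℕ → ℝ) (u : ℝ) (x : ℕ → ℝ) :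
    ∑ a ∈ range (n + 2), hc c l a * hX u x a = u * (c + ∑ i ∈ range n, l i * x i) := by
  rw [Finset.sum_range_succ', Finset.sum_range_succ']
  simp only [hc, hX]
  rw [mul_add, Finset.mul_sum]
  have : ∀ i ∈ range n, l i * (u * x i) = u * (l i * x i) := fun i _ => by ring
  rw [Finset.sum_congr rfl this]
  ring

theorem tri (M : ℕ) (A B C X : ℕ → ℝ) :
    ∑ a ∈ range M, ∑ b ∈ range M, ∑ c ∈ range M, (A a * B b * C c) * (X a * X b * X c)
      = (∑ a ∈ range M, A a * X a) * (∑ a ∈ range M, B a * X a) * ∑ a ∈ range M, C a * X a := by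
  rw [Finset.sum_mul_sum, Finset.sum_mul]
  refine Finset.sum_congr rfl fun a _ => ?_
  rw [Finset.sum_mul]
  refine Finset.sum_congr rfl fun b _ => ?_
  rw [Finset.mul_sum]
  exact Finset.sum_congr rfl fun c _ => by ring

theorem cf3_prod (P : List ℕ → List ℕ → ℝ) (c₁ c₂ c₃ : ℝ) (l₁ l₂ l₃ : ℕ → ℝ)
    (hP : ∀ L L', P L L' = (c₁ + (L.map l₁).sum - (L'.map l₁).sum)
      * (c₂ + (L.map l₂).sum - (L'.map l₂).sum) * (c₃ + (L.map l₃).sum - (L'.map l₃).sum))
    (a b c : ℕ) : cf3 oR P a b c = 12 * (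
      hc c₁ l₁ a * hc c₂ l₂ b * hc c₃ l₃ c + hc c₁ l₁ a * hc c₃ l₃ b * hc c₂ l₂ c
      + hc c₂ l₂ a * hc c₁ l₁ b * hc c₃ l₃ c + hc c₂ l₂ a * hc c₃ l₃ b * hc c₁ l₁ c
      + hc c₃ l₃ a * hc c₁ l₁ b * hc c₂ l₂ c + hc c₃ l₃ a * hc c₂ l₂ b * hc c₁ l₁ c) := by
  have n72 := nuO_oR 72
  have n12 := nuO_oR 12
  have n4 := nuO_oR 4
  have n3 := nuO_oR 3
  have hmul : ∀ x y : ℝ, oR.mul x y = x * y := fun _ _ => rfl
  have hadd : ∀ x y : ℝ, oR.add x y = x + y := fun _ _ => rfl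
  have hsub : ∀ x y : ℝ, oR.sub x y = x - y := fun _ _ => rfl
  have hzero : oR.zero = 0 := rfl
  rcases a with _ | _ | a
  · simp [cf3, hc, hzero]
  · rcases b with _ | _ | b
    · simp [cf3, hc, hzero]
    · rcases c with _ | _ | c
      · simp [cf3, hc, hzero]
      · simp [cf3, hc, n72, hmul, hP]
        ring
      · simp [cf3, hc, n12, n4, hmul, hadd, hsub, t3, hP]
        ring
    · rcases c with _ | _ | c
      · simp [cf3, hc, hzero]
      · simp [cf3, hc, n12, n4, hmul, hadd, hsub, t3, hP]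
        ring
      · simp [cf3, hc, n3, hmul, hadd, hsub, h2, hP]
        ring
  · rcases b with _ | _ | b
    · simp [cf3, hc, hzero]
    · rcases c with _ | _ | c
      · simp [cf3, hc, hzero]
      · simp [cf3, hc, n12, n4, hmul, hadd, hsub, t3, hP]
        ring
      · simp [cf3, hc, n3, hmul, hadd, hsub, h2, hP]
        ring
    · rcases c with _ | _ | c
      · simp [cf3, hc, hzero]
      · simp [cf3, hc, n3, hmul, hadd, hsub, h2, hP]
        ring
      · simp [cf3, hc, n12, hmul, hadd, hsub, t3, hP]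
        ring

/-- The expansion. -/
def Good (n : ℕ) (F : (ℕ → ℝ) → ℝ) : Prop := ∀ (u : ℝ) (x : ℕ → ℝ),
  cub (n + 2) (cf3 oR (fun L L' => F (pv L L'))) (hX u x) = 72 * u ^ 3 * F x

theorem cf3_add (P Q : List ℕ → List ℕ → ℝ) (a b c : ℕ) :
    cf3 oR (fun L L' => P L L' + Q L L') a b c = cf3 oR P a b c + cf3 oR Q a b c := by
  have hmul : ∀ x y : ℝ, oR.mul x y = x * y := fun _ _ => rfl
  have hadd : ∀ x y : ℝ, oR.add x y = x + y := fun _ _ => rfl
  have hsub : ∀ x y : ℝ, oR.sub x y = x - y := fun _ _ => rfl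
  have hzero : oR.zero = 0 := rfl
  unfold cf3
  split_ifs with h
  · rw [hzero, add_zero]
  · split <;> simp only [hmul, hadd, hsub, t3, h2] <;> ring

theorem good_add (n : ℕ) (F G : (ℕ → ℝ) → ℝ) (hF : Good n F) (hG : Good n G) :
    Good n (F + G) := by
  intro u x
  have h1 := hF u x
  have h2 := hG u x
  unfold cub at h1 h2 ⊢
  simp only [Pi.add_apply, cf3_add, add_mul, Finset.sum_add_distrib]
  rw [h1, h2]
  ring

theorem good_prod (n : ℕ) (f g h : (ℕ → ℝ) → ℝ) (hf : f ∈ aff n) (hg : g ∈ aff n)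
    (hh : h ∈ aff n) : Good n (f * g * h) := by
  intro u x
  obtain ⟨c₁, l₁, z₁, e₁⟩ := aff_rep n f hf
  obtain ⟨c₂, l₂, z₂, e₂⟩ := aff_rep n g hg
  obtain ⟨c₃, l₃, z₃, e₃⟩ := aff_rep n h hh
  have hP : ∀ L L', (fun L L' => (f * g * h) (pv L L')) L L'
      = (c₁ + (L.map l₁).sum - (L'.map l₁).sum)
      * (c₂ + (L.map l₂).sum - (L'.map l₂).sum) * (c₃ + (L.map l₃).sum - (L'.map l₃).sum) := by
    intro L L'
    simp only [Pi.mul_apply, e₁, e₂, e₃, aff_pv n _ _ z₁, aff_pv n _ _ z₂, aff_pv n _ _ z₃]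
  have hS := cf3_prod _ c₁ c₂ c₃ l₁ l₂ l₃ hP
  unfold cub
  simp only [hS]
  have hx : (f * g * h) x = (c₁ + ∑ i ∈ range n, l₁ i * x i)
      * (c₂ + ∑ i ∈ range n, l₂ i * x i) * (c₃ + ∑ i ∈ range n, l₃ i * x i) := by
    simp only [Pi.mul_apply, e₁, e₂, e₃]
  rw [hx]
  have t1 := tri (n + 2) (hc c₁ l₁) (hc c₂ l₂) (hc c₃ l₃) (hX u x)
  have t2 := tri (n + 2) (hc c₁ l₁) (hc c₃ l₃) (hc c₂ l₂) (hX u x)
  have t3 := tri (n + 2) (hc c₂ l₂) (hc c₁ l₁) (hc c₃ l₃) (hX u x)
  have t4 := tri (n + 2) (hc c₂ l₂) (hc c₃ l₃) (hc c₁ l₁) (hX u x)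
  have t5 := tri (n + 2) (hc c₃ l₃) (hc c₁ l₁) (hc c₂ l₂) (hX u x)
  have t6 := tri (n + 2) (hc c₃ l₃) (hc c₂ l₂) (hc c₁ l₁) (hX u x)
  simp only [sum_hc] at t1 t2 t3 t4 t5 t6
  simp only [mul_assoc (12 : ℝ), ← Finset.mul_sum, add_mul, Finset.sum_add_distrib]
  rw [t1, t2, t3, t4, t5, t6]
  ring

end TAY3h72

open TAY3h72 in
theorem st_TAY3 : ST_TAY3 := by
  intro s t n hs ht hsn htn
  have hm : (fun x => s.eval x) - (fun x => t.eval x) ∈ aff n ^ 3 :=
    Submodule.sub_mem _ (pow_mono n hs (eval_mem n s hsn)) (pow_mono n ht (eval_mem n t htn))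
  rw [show (3 : ℕ) = 2 + 1 from rfl, pow_succ, pow_two] at hm
  have hg : Good n ((fun x => s.eval x) - (fun x => t.eval x)) := by
    refine Submodule.mul_induction_on hm ?_ (good_add n)
    intro m hm h hh
    refine Submodule.mul_induction_on hm ?_ ?_
    · intro f hf g hg
      exact good_prod n f g h hf hg hh
    · intro x y hx hy
      rw [add_mul]
      exact good_add n _ _ hx hy
  intro u x
  exact hg u x

end Pool.Agent.Helper54.DT
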