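import Pool.Agent.Helper64.DT.Stmts

set_option autoImplicit false

namespace Pool.Agent.Helper64.DT

open Pool.Agent.Helper64.CT
open Pool.Agent.Helper64.HG (Ovl Model Circ IC HellyCircle ChordModel)

/-- two twins give a split -/
theorem d3d_twins {V : Type} {G : SimpleGraph V} (hP : Prime G) {b c a x : V} (hbc : b ≠ c)
    (hab : a ≠ b) (hac : a ≠ c) (hxb : x ≠ b) (hxc : x ≠ c) (hax : a ≠ x)
    (hN : ∀ n, G.Adj b n ↔ G.Adj c n) : False := by
  refine hP {u | u = b ∨ u = c} ⟨?_, ?_, ?_⟩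
  · rintro u1 h1 u2 h2 v1 _ v2 _ _ hv2
    have h1' : u1 = b ∨ u1 = c := h1
    have h2' : u2 = b ∨ u2 = c := h2
    have hb : G.Adj b v2 := by
      rcases h2' with e | e
      · rw [← e]; exact hv2
      · rw [hN v2, ← e]; exact hv2
    rcases h1' with e | e
    · rw [e]; exact hb
    · rw [e]; exact (hN v2).1 hb
  · exact ⟨b, Or.inl rfl, c, Or.inr rfl, hbc⟩
  · refine ⟨a, ?_, x, ?_, hax⟩
    · rintro (e | e)
      · exact hab e
      · exact hac e
    · rintro (e | e)
      · exact hxb e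
      · exact hxc e

theorem d3d_core {V : Type} {G : SimpleGraph V} (h5 : ST_SNG) (s : V → V → Bool)
    (hpc : G.Preconnected) (hP : Prime G) (hS : Sys G s) {x a b c : V}
    (hxa : G.Adj x a) (hxb : G.Adj x b) (hxc : G.Adj x c) (hab : a ≠ b) (hac : a ≠ c)
    (hbc : b ≠ c) (nab : ¬ G.Adj a b) (nac : ¬ G.Adj a c) (nbc : ¬ G.Adj b c)
    (hA : ∀ n ∈ Att G c b, G.Adj a n) (hab' : ¬ Comp G a b c) (h1 : ∀ z, Comp G c b z → z = b)
    (hN : Att G a c = Att G c b) (hs : s b a = s b c) : False := by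
  have fab : a ∈ Far G b := ⟨hab, fun h => nab h.symm⟩
  have fcb : c ∈ Far G b := ⟨fun e => hbc e.symm, nbc⟩
  have fbc : b ∈ Far G c := ⟨hbc, fun h => nbc h.symm⟩
  -- the neighbours of b
  have N1 : ∀ n, G.Adj b n → n ∈ Att G c b := by
    intro n hn
    have hcn : G.Adj c n := by
      by_contra hcn
      have hf : n ∈ Far G c := ⟨fun e => nbc (e ▸ hn), hcn⟩
      have := h1 n (Comp.adj fbc hf hn)
      exact hn.ne this.symm
    exact ⟨hcn, b, Comp.refl fbc, hn.symm⟩
  have N2 : ∀ n, n ∈ Att G c b → G.Adj b n := by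
    rintro n ⟨_, u, hu, hnu⟩
    rw [h1 u hu] at hnu
    exact hnu.symm
  have Nc : ∀ n, n ∈ Att G c b → G.Adj c n := fun n hn => hn.1
  have C1 : ∀ w, Comp G a c w → Comp G b c w := by
    intro w hw
    refine Comp.ind hw (fun w => Comp G b c w) (Comp.refl fcb) ?_
    intro z w' hz ihz hw' hzw'
    have hcw : Comp G a c w' := hz.step hw' hzw'
    refine ihz.step ⟨?_, ?_⟩ hzw'
    · intro e
      rw [e] at hcw
      exact hab' hcw.symm
    · intro hbw
      exact hw'.2 (hA w' (N1 w' hbw))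
  have C2 : ∀ w, Comp G b c w → Comp G a c w := by
    intro w hw
    have fca : c ∈ Far G a := ⟨fun e => hac e.symm, nac⟩
    refine Comp.ind hw (fun w => Comp G a c w) (Comp.refl fca) ?_
    intro z w' hz ihz hw' hzw'
    refine ihz.step ⟨?_, ?_⟩ hzw'
    · intro e
      rw [e] at hzw'
      exact ihz.right.2 hzw'.symm
    · intro haw
      have : w' ∈ Att G a c := ⟨haw, z, ihz, hzw'.symm⟩
      rw [hN] at this
      exact hw'.2 (N2 w' this)
  have hnc : ¬ Comp G b c a := fun h => (C2 a h).right.1 rfl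
  have A1 : Att G b c = Att G c b := by
    ext n
    constructor
    · intro hn
      exact N1 n hn.1
    · intro hn
      have hn' := hn
      rw [← hN] at hn'
      obtain ⟨_, w, hw, hnw⟩ := hn'
      exact ⟨N2 n hn, w, C1 w hw, hnw⟩
  have A2 : Att G b a = Att G c b := by
    ext n
    constructor
    · intro hn
      exact N1 n hn.1
    · intro hn
      exact ⟨N2 n hn, a, Comp.refl fab, (hA n hn).symm⟩
  -- a mixed vertex in the component of c at b
  have M1 : ∃ u, Comp G b c u ∧ Mixed G u (Att G b a) := by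
    by_contra hcon
    rw [A2, ← A1] at hcon
    have hsg := h5 V G hpc hP b c fcb (fun u hu hm => hcon ⟨u, hu, hm⟩)
    refine d3d_twins hP hbc hab hac hxb.ne hxc.ne hxa.ne.symm ?_
    intro n
    constructor
    · intro hn
      exact Nc n (N1 n hn)
    · intro hn
      by_contra hbn
      have hf : n ∈ Far G b := ⟨fun e => nbc (e ▸ hn).symm, hbn⟩
      have := hsg n (Comp.adj fcb hf hn)
      exact hn.ne this.symm
  have M2 : ∃ u, Comp G b a u ∧ Mixed G u (Att G b c) := by
    by_contra hcon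
    rw [A1, ← A2] at hcon
    have hsg := h5 V G hpc hP b a fab (fun u hu hm => hcon ⟨u, hu, hm⟩)
    refine d3d_twins hP (Ne.symm hab) (Ne.symm hbc) (Ne.symm hac) hxb.ne hxa.ne hxc.ne.symm ?_
    intro n
    constructor
    · intro hn
      exact hA n (N1 n hn)
    · intro hn
      by_contra hbn
      have hf : n ∈ Far G b := ⟨fun e => nab (e ▸ hn), hbn⟩
      have := hsg n (Comp.adj fab hf hn)
      exact hn.ne this.symm
  have hC : Conf G b a c := ⟨fun h => hnc h.symm, M2, M1⟩
  exact (hS b).2 a c hC hs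

theorem st_D3D (h1 : CT.ST_ALS) (h2 : CT.ST_BET) (h3 : ST_D2) (h4 : ST_SNG) : ST_D3D := by
  intro V G s hpc hP hDF hCI hS hT x a b c hxa hxb hxc hab hac hbc nab nac nbc hcab habc hsc hsa hsb
  have fac : a ∈ Far G c := ⟨hac, fun h => nac h.symm⟩
  have fbc : b ∈ Far G c := ⟨hbc, fun h => nbc h.symm⟩
  have hAl : Alpha G a c b := by
    by_contra hcon
    exact habc (h2 V G a c b fac fbc hcab hcon b (Comp.refl fbc)).symm
  obtain ⟨_, hD⟩ := h3 V G s hpc hP hDF hCI hS hT a c b fac hAl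
  obtain ⟨hz, hor⟩ := hD hsa hsc.symm
  obtain ⟨hAl', hcomp, hAtt⟩ := h1 V G a c b fac hAl
  rcases hor with h | h
  · exact d3d_core h4 s hpc hP hS hxa hxb hxc hab hac hbc nab nac nbc hAl.2.2 habc hz h hsb
  · refine d3d_core h4 s hpc hP hS hxc hxb hxa (Ne.symm hbc) (Ne.symm hac) (Ne.symm hab)
      (fun h => nbc h.symm) (fun h => nac h.symm) (fun h => nab h.symm) hAl'.2.2
      (fun h => hcab h.symm) (fun z hz' => hz z ((hcomp z).1 hz')) (h.trans hAtt.symm) hsb.symm

end Pool.Agent.Helper64.DT
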